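import Mathlib
import Pool.Agent.TH641.NW.End2

set_option autoImplicit false

/-!
# Uniform fat points at every number `n ≥ 10` of general points: all multiplicities, all degrees but
one

Let `n ≥ 10` and `m ≥ 1`. There is a degree `d₀` such that the space of forms of degree `d` vanishing to
order `m` at `n` general points of the complex projective plane has the expected dimension for every
degree `d ≠ d₀`, and also for `d = d₀` unless `√n (2 m + 1) - a ≤ 2 d₀ + 3 ≤ √n (2 m + 1) + b` with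
`a = min (√n - 3) (2 / 3 + 9 / (4 √n))` and `b = min (√n - 3) (2 / 3 + 1 / (4 √n))`.
-/

namespace Pool.Agent.Results.MP_d03834_ag.EveryDegreeButOne

theorem result : ∀ n : ℕ, 10 ≤ n → ∀ m : ℕ, 1 ≤ m → ∃ d₀ : ℕ,
    ∃ F : MvPolynomial (Fin n × Fin 2) ℂ, F ≠ 0 ∧
      ∀ P : Fin n → Fin 2 → ℂ,
        MvPolynomial.eval (fun ij : Fin n × Fin 2 => P ij.1 ij.2) F ≠ 0 →
        ∀ d : ℕ, (d ≠ d₀ ∨
          2 * (d : ℝ) + 3 < √(n : ℝ) * (2 * m + 1) - min (√(n : ℝ) - 3) (2 / 3 + 9 / (4 * √(n : ℝ))) ∨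
          √(n : ℝ) * (2 * m + 1) + min (√(n : ℝ) - 3) (2 / 3 + 1 / (4 * √(n : ℝ))) < 2 * (d : ℝ) + 3) →
          Module.finrank ℂ
            ↥(MvPolynomial.homogeneousSubmodule (Fin 3) ℂ d ⊓
              Submodule.restrictScalars ℂ
                (⨅ i : Fin n,
                  (Ideal.span
                    ({MvPolynomial.X 0 - MvPolynomial.C (P i 0) * MvPolynomial.X 2,
                      MvPolynomial.X 1 - MvPolynomial.C (P i 1) * MvPolynomial.X 2} :
                      Set (MvPolynomial (Fin 3) ℂ))) ^ m))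
          = Nat.choose (d + 2) 2 - n * Nat.choose (m + 1) 2 := by
  intro n hn m hm
  obtain ⟨F1, hF1, hF1'⟩ := TH641.NW.expDim_all_but_one (L := ℂ) hn hm
  obtain ⟨F2, hF2, hF2'⟩ := TH641.NW.expDim_uni_win2 (L := ℂ) hn hm
  refine ⟨TH641.NW.dcrit n m, (F1 * F2).map (algebraMap ℚ ℂ),
    H932R3.map_ne_zero_of (mul_ne_zero hF1 hF2), fun P hP d hd => ?_⟩
  rw [MvPolynomial.eval_map] at hP
  have hP' : MvPolynomial.aeval (fun ij : Fin n × Fin 2 => P ij.1 ij.2) (F1 * F2) ≠ 0 := hP
  rw [map_mul] at hP'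
  have h1 : H932R3.ExpDim ℂ (fun _ => m) P d := by
    rcases hd with hd | hd | hd
    · exact hF1' P (left_ne_zero_of_mul hP') d hd
    · exact hF2' P (right_ne_zero_of_mul hP') d (Or.inl (by linarith))
    · exact hF2' P (right_ne_zero_of_mul hP') d (Or.inr (by linarith))
  unfold H932R3.ExpDim at h1
  rw [Finset.sum_const, Finset.card_univ, Fintype.card_fin, smul_eq_mul] at h1
  exact h1

end Pool.Agent.Results.MP_d03834_ag.EveryDegreeButOne
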