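import Mathlib
import Pool.Agent.TH864.SX.Final13
import Pool.Agent.TH864.SX.Eleven
import Pool.Agent.TH469.SX.TwentyOne
import Pool.Agent.TH469.SX.Fifteen

set_option autoImplicit false

/-!
# The uniform Harbourne-Hirschowitz conjecture for 13 and for 21 points; 11 and 15 points

For `n = 13` and for `n = 21` and for every multiplicity `m` there is a nonempty Zariski-open set of
`n`-tuples of points of the complex projective plane such that for every degree `d` the space of forms of
degree `d` vanishing to order `m` at the `n` points has the expected dimension. For `n = 11` and for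
`n = 15` the same holds in every degree `d` which is not divisible by three, and in every degree divisible
by three with `d < √n m` or `√n (2 m + 1) ≤ 2 d + 3`.
-/

namespace Pool.Agent.Results.MP_d03834_ag.ThirteenAndTwentyOnePoints

theorem result :
    (∀ n : ℕ, n = 13 ∨ n = 21 → ∀ m : ℕ,
      ∃ F : MvPolynomial (Fin n × Fin 2) ℂ, F ≠ 0 ∧
        ∀ P : Fin n → Fin 2 → ℂ,
          MvPolynomial.eval (fun ij : Fin n × Fin 2 => P ij.1 ij.2) F ≠ 0 →
          ∀ d : ℕ,
            Module.finrank ℂ
              ↥(MvPolynomial.homogeneousSubmodule (Fin 3) ℂ d ⊓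
                Submodule.restrictScalars ℂ
                  (⨅ i : Fin n,
                    (Ideal.span
                      ({MvPolynomial.X 0 - MvPolynomial.C (P i 0) * MvPolynomial.X 2,
                        MvPolynomial.X 1 - MvPolynomial.C (P i 1) * MvPolynomial.X 2} :
                        Set (MvPolynomial (Fin 3) ℂ))) ^ m))
            = Nat.choose (d + 2) 2 - n * Nat.choose (m + 1) 2) ∧
    (∀ n : ℕ, n = 11 ∨ n = 15 → ∀ m : ℕ,
      ∃ F : MvPolynomial (Fin n × Fin 2) ℂ, F ≠ 0 ∧
        ∀ P : Fin n → Fin 2 → ℂ,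
          MvPolynomial.eval (fun ij : Fin n × Fin 2 => P ij.1 ij.2) F ≠ 0 →
          ∀ d : ℕ, (¬ 3 ∣ d ∨ (d : ℝ) < √(n : ℝ) * m ∨ √(n : ℝ) * (2 * m + 1) ≤ 2 * d + 3) →
            Module.finrank ℂ
              ↥(MvPolynomial.homogeneousSubmodule (Fin 3) ℂ d ⊓
                Submodule.restrictScalars ℂ
                  (⨅ i : Fin n,
                    (Ideal.span
                      ({MvPolynomial.X 0 - MvPolynomial.C (P i 0) * MvPolynomial.X 2,
                        MvPolynomial.X 1 - MvPolynomial.C (P i 1) * MvPolynomial.X 2} :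
                        Set (MvPolynomial (Fin 3) ℂ))) ^ m))
            = Nat.choose (d + 2) 2 - n * Nat.choose (m + 1) 2) := by
  constructor
  · have key : ∀ n : ℕ, n = 13 ∨ n = 21 → ∀ m : ℕ, ∃ F : MvPolynomial (Fin n × Fin 2) ℚ, F ≠ 0 ∧
        ∀ {L : Type} [Field L] [CharZero L] (P : Fin n → Fin 2 → L),
        MvPolynomial.aeval (fun ij : Fin n × Fin 2 => P ij.1 ij.2) F ≠ 0 →
        ∀ d, H932R3.ExpDim L (fun _ => m) P d := by
      rintro n (rfl | rfl) m
      · exact TH864.SX.uniform13 m
      · exact TH469.SX.twentyone m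
    intro n hn m
    obtain ⟨F, hF, hF'⟩ := key n hn m
    refine ⟨F.map (algebraMap ℚ ℂ), H932R3.map_ne_zero_of hF, fun P hP d => ?_⟩
    rw [MvPolynomial.eval_map] at hP
    have h1 := hF' P hP d
    unfold H932R3.ExpDim at h1
    rw [Finset.sum_const, Finset.card_univ, Fintype.card_fin, smul_eq_mul] at h1
    exact h1
  · have key : ∀ n : ℕ, n = 11 ∨ n = 15 → ∀ m : ℕ, ∃ F : MvPolynomial (Fin n × Fin 2) ℚ, F ≠ 0 ∧
        ∀ {L : Type} [Field L] [CharZero L] (P : Fin n → Fin 2 → L),
        MvPolynomial.aeval (fun ij : Fin n × Fin 2 => P ij.1 ij.2) F ≠ 0 →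
        ∀ d : ℕ, (¬ 3 ∣ d ∨ (d : ℝ) < √(n : ℝ) * m ∨ √(n : ℝ) * (2 * m + 1) ≤ 2 * d + 3) →
          H932R3.ExpDim L (fun _ => m) P d := by
      rintro n (rfl | rfl) m
      · obtain ⟨F, hF, hF'⟩ := TH864.SX.uniform11 m
        exact ⟨F, hF, fun P hP d hd => hF' P hP d (by push_cast at hd; exact hd)⟩
      · obtain ⟨F, hF, hF'⟩ := TH469.SX.fifteen m
        exact ⟨F, hF, fun P hP d hd => hF' P hP d (by push_cast at hd; exact hd)⟩
    intro n hn m
    obtain ⟨F, hF, hF'⟩ := key n hn m
    refine ⟨F.map (algebraMap ℚ ℂ), H932R3.map_ne_zero_of hF, fun P hP d hd => ?_⟩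
    rw [MvPolynomial.eval_map] at hP
    have h1 := hF' P hP d hd
    unfold H932R3.ExpDim at h1
    rw [Finset.sum_const, Finset.card_univ, Fintype.card_fin, smul_eq_mul] at h1
    exact h1

end Pool.Agent.Results.MP_d03834_ag.ThirteenAndTwentyOnePoints
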