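import Mathlib
import Pool.Agent.TH760.EN.Asm

set_option autoImplicit false

/-!
# The uniform Harbourne-Hirschowitz conjecture for every number `n ≥ 37` of points

For every `n ≥ 37`, every multiplicity `m ≥ 1`, `n` general points of the complex projective plane
and EVERY degree `d`, the space of forms of degree `d` vanishing to order `m` at the `n` points has
the expected dimension `max (0, (d + 1) (d + 2) / 2 - n m (m + 1) / 2)`.
-/

namespace Pool.Agent.Results.MP_d03834_ag.UniformFromThirtySeven

theorem result : ∀ n : ℕ, 37 ≤ n → ∀ m : ℕ, 1 ≤ m →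
    ∃ F : MvPolynomial (Fin n × Fin 2) ℂ, F ≠ 0 ∧
      ∀ P : Fin n → Fin 2 → ℂ,
        MvPolynomial.eval (fun ij : Fin n × Fin 2 => P ij.1 ij.2) F ≠ 0 →
        ∀ d : ℕ,
          Module.finrank ℂ
            ↥(MvPolynomial.homogeneousSubmodule (Fin 3) ℂ d ⊓
              Submodule.restrictScalars ℂ
                (⨅ i : Fin n,
                  (Ideal.span
                    ({MvPolynomial.X 0 - MvPolynomial.C (P i 0) * MvPolynomial.X 2,
                      MvPolynomial.X 1 - MvPolynomial.C (P i 1) * MvPolynomial.X 2} :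
                      Set (MvPolynomial (Fin 3) ℂ))) ^ m))
          = Nat.choose (d + 2) 2 - n * Nat.choose (m + 1) 2 := by
  intro n hn m hm
  obtain ⟨F, hF, hF'⟩ := TH760.EN.expDim37 (L := ℂ) hn hm
  refine ⟨F.map (algebraMap ℚ ℂ), H932R3.map_ne_zero_of hF, fun P hP d => ?_⟩
  rw [MvPolynomial.eval_map] at hP
  have h1 := hF' P hP d
  unfold H932R3.ExpDim at h1
  rw [Finset.sum_const, Finset.card_univ, Fintype.card_fin, smul_eq_mul] at h1
  exact h1

end Pool.Agent.Results.MP_d03834_ag.UniformFromThirtySeven
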